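import Pool.Agent.H7.LP.Targets

/-!
# Borel actions have codes by closed sets (helper13, row HIT of lpg_modules)
-/

set_option autoImplicit false

open Set Filter Topology

namespace Pool.Agent.H13.LPG

open Pool.Agent.H93.CP Pool.Agent.H7.LP

/-- essential closures are invariant under homeomorphisms -/
theorem ess_pre {T : Type} [TopologicalSpace T] (h : T ≃ₜ T) (D : Set T) :
    ess (h ⁻¹' D) = h ⁻¹' (ess D) := by
  ext g
  constructor
  · intro hg U hU hm
    apply hg (h ⁻¹' U) (h.continuous.continuousAt.preimage_mem_nhds hU)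
    rw [← preimage_inter]
    exact hm.preimage_of_isOpenMap h.continuous h.isOpenMap
  · intro hg U hU hm
    have h1 : h.symm ⁻¹' U ∈ 𝓝 (h g) := by
      apply h.symm.continuous.continuousAt.preimage_mem_nhds
      rwa [h.symm_apply_apply]
    apply hg (h.symm ⁻¹' U) h1
    have h2 : D ∩ h.symm ⁻¹' U = h.symm ⁻¹' (h ⁻¹' D ∩ U) := by
      ext a
      simp
    rw [h2]
    exact hm.preimage_of_isOpenMap h.symm.continuous h.symm.isOpenMap

theorem ess_univ {T : Type} [TopologicalSpace T] [BaireSpace T] : ess (univ : Set T) = univ := by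
  ext g
  simp only [mem_univ, iff_true]
  intro U hU hm
  rw [univ_inter] at hm
  obtain ⟨V, hVU, hV, hgV⟩ := mem_nhds_iff.mp hU
  exact not_isMeagre_of_isOpen hV ⟨g, hgV⟩ (hm.mono hVU)

theorem pf_HIT (h1 : T_SPS) (h2 : T_ESA) (h3 : T_ESB) (h4 : Pool.Agent.H93.CP.T_STM) : T_HIT := by
  intro G X _ _ _ _ _ _ _ _ M _ _ hM
  haveI : PolishSpace M := hM.polishSpace
  obtain ⟨A, hA, hA0, hAc, hAs⟩ := h1 X
  let D : X → ℕ → Set M := fun x n => {m : M | m • x ∈ A n}
  have hD : ∀ x n, MeasurableSet (D x n) := fun x n =>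
    (measurable_id.smul_const x : Measurable fun m : M => m • x) (hA n)
  have hval : Function.Injective (Subtype.val : M → G) := Subtype.val_injective
  refine ⟨⟨fun x n => Subtype.val '' ess (D x n), ?_, ?_, ?_, ?_, ?_⟩⟩
  · intro x n
    exact hM.isClosedEmbedding_subtypeVal.isClosedMap _ (h2 M (D x n)).1
  · intro x
    have e1 : D x 0 = univ := by
      ext m
      simp only [mem_univ, iff_true]
      change m • x ∈ A 0
      rw [hA0]
      trivial
    rw [e1, ess_univ, image_univ]
    exact Subtype.range_val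
  · intro x y hxy
    have hess : ∀ n, ess (D x n) = ess (D y n) := fun n =>
      hval.image_injective (congrFun hxy n)
    have hmg : ∀ n, IsMeagre {m : M | ¬ (m ∈ D x n ↔ m ∈ D y n)} := by
      intro n
      obtain ⟨m, hm⟩ := hAc n
      have e1 : ∀ z, (D z n)ᶜ = D z m := by
        intro z
        ext a
        change ¬ (a • z ∈ A n) ↔ a • z ∈ A m
        rw [hm]
        rfl
      exact h3 M (D x n) (D y n) (hD x n) (hD y n) (hess n) (by rw [e1 x, e1 y]; exact hess m)
    have hU : IsMeagre (⋃ n, {m : M | ¬ (m ∈ D x n ↔ m ∈ D y n)}) := isMeagre_iUnion hmg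
    have hne : (⋃ n, {m : M | ¬ (m ∈ D x n ↔ m ∈ D y n)}) ≠ univ := by
      intro hc
      rw [hc] at hU
      exact not_isMeagre_of_isOpen isOpen_univ ⟨(1 : M), trivial⟩ hU
    obtain ⟨m, hm⟩ := (ne_univ_iff_exists_notMem _).mp hne
    have h5 : m • x = m • y := by
      apply hAs
      intro n
      by_contra hc
      exact hm (mem_iUnion.mpr ⟨n, hc⟩)
    have h6 := congrArg (fun z => m⁻¹ • z) h5
    simpa using h6
  · intro m0 x
    funext n
    have e1 : D (m0 • x) n = (Homeomorph.mulRight m0) ⁻¹' (D x n) := by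
      ext m
      change m • m0 • x ∈ A n ↔ (m * m0) • x ∈ A n
      rw [mul_smul]
    rw [e1, ess_pre]
    ext a
    change a ∈ Subtype.val '' ((Homeomorph.mulRight m0) ⁻¹' ess (D x n)) ↔
      a * (m0 : G) ∈ Subtype.val '' ess (D x n)
    constructor
    · rintro ⟨g, hg, rfl⟩
      exact ⟨g * m0, hg, rfl⟩
    · rintro ⟨g, hg, hga⟩
      refine ⟨g * m0⁻¹, ?_, ?_⟩
      · change (g * m0⁻¹) * m0 ∈ ess (D x n)
        rwa [inv_mul_cancel_right]
      · change (g : G) * (m0 : G)⁻¹ = a
        rw [hga, mul_inv_cancel_right]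
  · intro n U hU
    have e1 : {x : X | (Subtype.val '' ess (D x n) ∩ U).Nonempty} =
        (Star (A n)ᶜ (Subtype.val ⁻¹' U : Set M))ᶜ := by
      ext x
      have e2 : (Subtype.val '' ess (D x n) ∩ U).Nonempty ↔
          (ess (D x n) ∩ (Subtype.val ⁻¹' U : Set M)).Nonempty := by
        constructor
        · rintro ⟨_, ⟨g, hg, rfl⟩, hgU⟩
          exact ⟨g, hg, hgU⟩
        · rintro ⟨g, hg, hgU⟩
          exact ⟨g, ⟨g, hg, rfl⟩, hgU⟩
      change (Subtype.val '' ess (D x n) ∩ U).Nonempty ↔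
        ¬ IsMeagre {g : M | g ∈ (Subtype.val ⁻¹' U : Set M) ∧ g • x ∉ (A n)ᶜ}
      rw [e2, (h2 M (D x n)).2 _ (hU.preimage continuous_subtype_val)]
      have e3 : {g : M | g ∈ (Subtype.val ⁻¹' U : Set M) ∧ g • x ∉ (A n)ᶜ} =
          D x n ∩ (Subtype.val ⁻¹' U : Set M) := by
        ext g
        constructor
        · rintro ⟨hg, hx⟩
          exact ⟨not_not.mp hx, hg⟩
        · rintro ⟨hx, hg⟩
          exact ⟨hg, fun hc => hc hx⟩
      rw [e3]
    rw [e1]
    exact ((h4 M X).1 _ _ (hA n).compl (hU.preimage continuous_subtype_val)).compl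

end Pool.Agent.H13.LPG
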